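import Pool.Agent.R277.SbpM
import Pool.Agent.R277.Poly

/-!
# Subspaces of `SNA(M)` for metric spaces with the small ball property

Question (Kadets, Roldan): if `M` has the small ball property, is every subspace of `SNA(M)` separable and
isomorphically polyhedral?  The answer is no: every Banach space with separable dual, for instance `ℓ²`, is
isometric to a subspace of `SNA(M)` for a complete metric space `M` with the small ball property.

Proof.  Let `(e n)` be dense in the unit ball of `X*`.  For `k : ℕ → ℕ` put
`pt k = ∑ j, r(k,j) e (k j)`, `r(k,j) = ∏ i < j, (1/4) (1/2)^(k i)`.  The set `A` of these points is covered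
by cylinders whose diameters tend to zero along every enumeration, but, choosing the terms of two such
series alternately, one sees that every vector of the unit ball of `X*` is a sum of two points of `A`.
`M` is the disjoint union of `A` and `-A`; points of different copies have distance `max 1 ‖x - y‖`.
So the molecules of `M` restricted to `X` contain the unit sphere of `X*`, hence a boundary of `X`.
That `ℓ²` is not isomorphic to a polyhedral space is proved directly (countable boundaries).
-/

set_option autoImplicit false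

open Set Filter Topology Metric

namespace Pool.Agent.Results.MP_8cd1d0_an.SmallBallCounterexample

universe u v

section Defs

variable (M : Type u) [MetricSpace M] (o : M)

/-- the Lipschitz functions on `M` which vanish at the base point `o`, as a set of functions closed under
addition and multiplication by scalars -/
def lipFunctions : Submodule ℝ (M → ℝ) where
  carrier := {f | f o = 0 ∧ ∃ K : NNReal, LipschitzWith K f}
  add_mem' := by
    rintro f g ⟨hf, K, hK⟩ ⟨hg, L, hL⟩
    exact ⟨by simp [hf, hg], K + L, hK.add hL⟩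
  zero_mem' := ⟨rfl, 0, LipschitzWith.const 0⟩
  smul_mem' := by
    rintro c f ⟨hf, K, hK⟩
    refine ⟨by simp [hf], ‖c‖₊ * K, ?_⟩
    apply LipschitzWith.of_dist_le_mul
    intro x y
    have h := hK.dist_le_mul x y
    rw [Real.dist_eq] at h ⊢
    simp only [Pi.smul_apply, smul_eq_mul]
    rw [← mul_sub, abs_mul, NNReal.coe_mul, mul_assoc]
    exact mul_le_mul_of_nonneg_left h (abs_nonneg c)

/-- The vector space `Lip₀(M)` of the real Lipschitz functions on `M` which vanish at `o`. -/
def Lip0 : Type u := lipFunctions M o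

instance : AddCommGroup (Lip0 M o) := inferInstanceAs (AddCommGroup (lipFunctions M o))

instance : Module ℝ (Lip0 M o) := inferInstanceAs (Module ℝ (lipFunctions M o))

variable {M o}

/-- The values of an element of `Lip₀(M)`. -/
def Lip0.eval (f : Lip0 M o) (x : M) : ℝ := f.1 x

/-- The norm of `Lip₀(M)`: the supremum of `|f x - f y| / d(x, y)` over all `x ≠ y`. -/
noncomputable instance : Norm (Lip0 M o) :=
  ⟨fun f => ⨆ p : {p : M × M // p.1 ≠ p.2}, |f.eval p.1.1 - f.eval p.1.2| / dist p.1.1 p.1.2⟩

lemma eval_add (f g : Lip0 M o) (x : M) : (f + g).eval x = f.eval x + g.eval x := rfl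

lemma eval_smul (c : ℝ) (f : Lip0 M o) (x : M) : (c • f).eval x = c * f.eval x := rfl

lemma eval_base (f : Lip0 M o) : f.eval o = 0 := f.2.1

lemma ext_eval {f g : Lip0 M o} (h : ∀ x, f.eval x = g.eval x) : f = g := Subtype.ext (funext h)

lemma bdd (f : Lip0 M o) : BddAbove (range fun p : {p : M × M // p.1 ≠ p.2} =>
    |f.eval p.1.1 - f.eval p.1.2| / dist p.1.1 p.1.2) := by
  obtain ⟨K, hK⟩ := f.2.2
  refine ⟨K, ?_⟩
  rintro _ ⟨p, rfl⟩
  have hp : 0 < dist p.1.1 p.1.2 := dist_pos.2 p.2
  change |f.eval p.1.1 - f.eval p.1.2| / dist p.1.1 p.1.2 ≤ K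
  rw [div_le_iff₀ hp]
  have := hK.dist_le_mul p.1.1 p.1.2
  rwa [Real.dist_eq] at this

lemma norm_nonneg' (f : Lip0 M o) : 0 ≤ ‖f‖ := Real.iSup_nonneg fun _ => by positivity

lemma le_norm (f : Lip0 M o) (x y : M) : |f.eval x - f.eval y| ≤ ‖f‖ * dist x y := by
  by_cases h : x = y
  · rw [h, sub_self, abs_zero, dist_self, mul_zero]
  · have hp : 0 < dist x y := dist_pos.2 h
    rw [← div_le_iff₀ hp]
    exact le_ciSup (bdd f) ⟨(x, y), h⟩

lemma norm_le {f : Lip0 M o} {C : ℝ} (hC : 0 ≤ C)
    (h : ∀ x y, |f.eval x - f.eval y| ≤ C * dist x y) : ‖f‖ ≤ C := by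
  apply Real.iSup_le _ hC
  intro p
  rw [div_le_iff₀ (dist_pos.2 p.2)]
  exact h _ _

lemma core : NormedSpace.Core ℝ (Lip0 M o) where
  norm_nonneg := norm_nonneg'
  norm_smul := by
    intro c f
    apply le_antisymm
    · apply norm_le (mul_nonneg (norm_nonneg c) (norm_nonneg' f))
      intro x y
      rw [eval_smul, eval_smul, ← mul_sub, abs_mul, mul_assoc]
      exact mul_le_mul_of_nonneg_left (le_norm f x y) (abs_nonneg c)
    · by_cases hc : c = 0
      · rw [hc, norm_zero, zero_mul]; exact norm_nonneg' _
      · have hc' : 0 < ‖c‖ := norm_pos_iff.2 hc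
        rw [← le_div_iff₀' hc']
        apply norm_le (div_nonneg (norm_nonneg' _) hc'.le)
        intro x y
        have h := le_norm (c • f) x y
        rw [eval_smul, eval_smul, ← mul_sub, abs_mul] at h
        have h2 : |f.eval x - f.eval y| ≤ ‖c • f‖ * dist x y / ‖c‖ := by
          rw [le_div_iff₀' hc']; exact h
        calc _ ≤ _ := h2
          _ = _ := by ring
  norm_triangle := by
    intro f g
    apply norm_le (add_nonneg (norm_nonneg' f) (norm_nonneg' g))
    intro x y
    rw [eval_add, eval_add, add_mul]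
    have h1 := le_norm f x y
    have h2 := le_norm g x y
    have h3 : f.eval x + g.eval x - (f.eval y + g.eval y) =
      (f.eval x - f.eval y) + (g.eval x - g.eval y) := by ring
    rw [h3]
    exact (abs_add_le _ _).trans (add_le_add h1 h2)
  norm_eq_zero_iff := by
    intro f
    constructor
    · intro h
      apply ext_eval
      intro x
      have h1 := le_norm f x o
      rw [h, zero_mul, eval_base, sub_zero] at h1
      exact abs_nonpos_iff.1 h1
    · rintro rfl
      apply le_antisymm _ (norm_nonneg' _)
      apply norm_le le_rfl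
      intro x y
      have : ∀ z : M, (0 : Lip0 M o).eval z = 0 := fun _ => rfl
      rw [this, this]
      simp

noncomputable instance : NormedAddCommGroup (Lip0 M o) := NormedAddCommGroup.ofCore core

noncomputable instance : NormedSpace ℝ (Lip0 M o) := NormedSpace.ofCore core

/-- `f` attains its norm strongly: `|f x - f y| = ‖f‖ d(x, y)` for some `x ≠ y`. -/
def AttainsStrongly (f : Lip0 M o) : Prop :=
  ∃ x y : M, x ≠ y ∧ |f.eval x - f.eval y| = ‖f‖ * dist x y

end Defs

/-- The small ball property: for every `ε > 0` the space is the union of closed balls `B(x n, r n)`,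
`n ∈ ℕ`, with `r n < ε` for all `n` and `r n → 0`. -/
def SmallBallProperty (M : Type u) [MetricSpace M] : Prop :=
  ∀ ε : ℝ, 0 < ε → ∃ (x : ℕ → M) (r : ℕ → ℝ), (∀ n, 0 < r n ∧ r n < ε) ∧
    Tendsto r atTop (𝓝 0) ∧ ⋃ n, closedBall (x n) (r n) = univ

/-- A normed space is polyhedral if the closed unit ball of each of its finite-dimensional subspaces is
the convex hull of a finite set. -/
def Polyhedral (Z : Type u) [NormedAddCommGroup Z] [NormedSpace ℝ Z] : Prop :=
  ∀ F : Submodule ℝ Z, FiniteDimensional ℝ F →
    ∃ s : Set F, s.Finite ∧ closedBall (0 : F) 1 = convexHull ℝ s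

open Pool.Agent.R277.Sbp in
/-- the embedding -/
theorem embedding (X : Type u) [NormedAddCommGroup X] [NormedSpace ℝ X] [CompleteSpace X]
    (hX : TopologicalSpace.SeparableSpace (StrongDual ℝ X)) :
    ∃ (M : Type) (_ : MetricSpace M) (o : M), CompleteSpace M ∧ SmallBallProperty M ∧
      ∃ Y : Submodule ℝ (Lip0 M o), IsClosed (Y : Set (Lip0 M o)) ∧
        (∀ f ∈ Y, AttainsStrongly f) ∧ Nonempty (X ≃ₗᵢ[ℝ] Y) := by
  have hsc : SecondCountableTopology (StrongDual ℝ X) :=
    UniformSpace.secondCountable_of_separable (StrongDual ℝ X)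
  have hne : Nonempty (closedBall (0 : StrongDual ℝ X) 1) := ⟨⟨0, by simp⟩⟩
  let e : ℕ → StrongDual ℝ X := fun n =>
    (TopologicalSpace.denseSeq (closedBall (0 : StrongDual ℝ X) 1) n : StrongDual ℝ X)
  have he : ∀ n, ‖e n‖ ≤ 1 := by
    intro n
    have := (TopologicalSpace.denseSeq (closedBall (0 : StrongDual ℝ X) 1) n).2
    rwa [mem_closedBall_zero_iff] at this
  have hd : ∀ v : StrongDual ℝ X, ‖v‖ ≤ 1 → ∀ δ : ℝ, 0 < δ → ∃ n, ‖v - e n‖ ≤ δ := by
    intro v hv δ hδ
    have h1 := TopologicalSpace.denseRange_denseSeq (closedBall (0 : StrongDual ℝ X) 1)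
    obtain ⟨n, hn⟩ := h1.exists_dist_lt ⟨v, by simpa using hv⟩ hδ
    refine ⟨n, ?_⟩
    rw [Subtype.dist_eq, dist_eq_norm] at hn
    exact hn.le
  let o : Pt e := Pt.mk e false (fun _ => 0)
  let Φ₀ : X →ₗ[ℝ] Lip0 (Pt e) o :=
    { toFun := fun x => ⟨fun p => val e p x - val e o x, by
        refine ⟨sub_self _, ‖x‖₊, ?_⟩
        apply LipschitzWith.of_dist_le_mul
        intro p q
        rw [Real.dist_eq]
        have h1 : val e p x - val e o x - (val e q x - val e o x) = (val e p - val e q) x := by
          rw [sub_apply]; ring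
        rw [h1, ← Real.norm_eq_abs]
        refine ((val e p - val e q).le_opNorm x).trans ?_
        rw [mul_comm]
        exact mul_le_mul_of_nonneg_left (val_lip p q) (norm_nonneg x)⟩
      map_add' := by
        intro x y
        apply ext_eval
        intro p
        change val e p (x + y) - val e o (x + y) =
          (val e p x - val e o x) + (val e p y - val e o y)
        rw [map_add, map_add]; ring
      map_smul' := by
        intro c x
        apply ext_eval
        intro p
        change val e p (c • x) - val e o (c • x) = c * (val e p x - val e o x)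
        rw [map_smul, map_smul, smul_eq_mul, smul_eq_mul]; ring }
  have hev : ∀ x p q, (Φ₀ x).eval p - (Φ₀ x).eval q = (val e p - val e q) x := by
    intro x p q
    change (val e p x - val e o x) - (val e q x - val e o x) = (val e p - val e q) x
    rw [sub_apply]; ring
  have hle : ∀ x, ‖Φ₀ x‖ ≤ ‖x‖ := by
    intro x
    apply norm_le (norm_nonneg x)
    intro p q
    rw [hev, ← Real.norm_eq_abs]
    refine ((val e p - val e q).le_opNorm x).trans ?_
    rw [mul_comm]
    exact mul_le_mul_of_nonneg_left (val_lip p q) (norm_nonneg x)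
  have hatt : ∀ x, ∃ p q : Pt e, p ≠ q ∧ dist p q = 1 ∧ (Φ₀ x).eval p - (Φ₀ x).eval q = ‖x‖ := by
    intro x
    obtain ⟨h, hh, hhx⟩ := exists_dual_vector'' ℝ x
    obtain ⟨p, q, hpq, hdist⟩ := exists_pair he hd h hh
    refine ⟨p, q, ?_, hdist, ?_⟩
    · rintro rfl
      rw [dist_self] at hdist
      exact zero_ne_one hdist
    · rw [hev, hpq]
      simpa using hhx
  have hnorm : ∀ x, ‖Φ₀ x‖ = ‖x‖ := by
    intro x
    apply le_antisymm (hle x)
    obtain ⟨p, q, _, hdist, hval⟩ := hatt x
    have h1 := le_norm (Φ₀ x) p q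
    rw [hval, hdist, mul_one, abs_of_nonneg (norm_nonneg x)] at h1
    exact h1
  let Φ : X →ₗᵢ[ℝ] Lip0 (Pt e) o := ⟨Φ₀, hnorm⟩
  refine ⟨Pt e, inferInstance, o, complete_Pt he, smallBall_Pt he, LinearMap.range Φ.toLinearMap,
    ?_, ?_, ⟨Φ.equivRange⟩⟩
  · have h1 := Φ.isometry.isClosedEmbedding.isClosed_range
    have h2 : (LinearMap.range Φ.toLinearMap : Set (Lip0 (Pt e) o)) = range Φ := by
      ext f; simp
    rw [h2]
    exact h1
  · rintro f ⟨x, rfl⟩
    obtain ⟨p, q, hne', hdist, hval⟩ := hatt x
    refine ⟨p, q, hne', ?_⟩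
    change |(Φ₀ x).eval p - (Φ₀ x).eval q| = ‖Φ₀ x‖ * dist p q
    rw [hval, hdist, hnorm, mul_one, abs_of_nonneg (norm_nonneg x)]

/-- **Answer to the question.**  (1) There are a complete pointed metric space `M` with the small ball
property and a closed linear subspace `Y` of `Lip₀(M)`, isometric to `ℓ²` and consisting of functions which
attain their norm strongly, such that `Y` is not isomorphic to any polyhedral Banach space.
(2) More generally every Banach space with separable dual is isometric to a closed linear subspace of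
`Lip₀(M)` consisting of functions which attain their norm strongly, for some complete pointed metric space
`M` with the small ball property. -/
theorem result :
    (∃ (M : Type) (_ : MetricSpace M) (o : M), CompleteSpace M ∧ SmallBallProperty M ∧
      ∃ Y : Submodule ℝ (Lip0 M o), IsClosed (Y : Set (Lip0 M o)) ∧ (∀ f ∈ Y, AttainsStrongly f) ∧
        Nonempty (lp (fun _ : ℕ => ℝ) 2 ≃ₗᵢ[ℝ] Y) ∧
        ∀ (Z : Type v) [NormedAddCommGroup Z] [NormedSpace ℝ Z] [CompleteSpace Z],
          Polyhedral Z → IsEmpty (Y ≃L[ℝ] Z)) ∧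
    ∀ (X : Type u) [NormedAddCommGroup X] [NormedSpace ℝ X] [CompleteSpace X],
      TopologicalSpace.SeparableSpace (StrongDual ℝ X) →
      ∃ (M : Type) (_ : MetricSpace M) (o : M), CompleteSpace M ∧ SmallBallProperty M ∧
        ∃ Y : Submodule ℝ (Lip0 M o), IsClosed (Y : Set (Lip0 M o)) ∧
          (∀ f ∈ Y, AttainsStrongly f) ∧ Nonempty (X ≃ₗᵢ[ℝ] Y) := by
  refine ⟨?_, fun X _ _ _ hX => embedding X hX⟩
  let H := lp (fun _ : ℕ => ℝ) 2
  have b : HilbertBasis ℕ ℝ H := HilbertBasis.ofRepr (LinearIsometryEquiv.refl ℝ _)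
  have hsep : TopologicalSpace.SeparableSpace H := by
    have h1 : TopologicalSpace.IsSeparable
        ((Submodule.span ℝ (range b) : Submodule ℝ H) : Set H) :=
      (countable_range b).isSeparable.span
    have h2 := h1.closure
    have h3 : closure ((Submodule.span ℝ (range b) : Submodule ℝ H) : Set H) = univ := by
      have := b.dense_span
      rw [← Submodule.topologicalClosure_coe, this]
      rfl
    rw [h3] at h2
    exact TopologicalSpace.isSeparable_univ_iff.mp h2
  have hinf : ¬ FiniteDimensional ℝ H := by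
    intro hfd
    have h1 := b.orthonormal.linearIndependent
    exact Set.infinite_univ (Set.finite_univ_iff.2 h1.finite)
  have hdual : TopologicalSpace.SeparableSpace (StrongDual ℝ H) := by
    let D := InnerProductSpace.toDual ℝ H
    exact D.surjective.denseRange.separableSpace D.continuous
  obtain ⟨M, hM, o, h1, h2, Y, h3, h4, ⟨ι⟩⟩ := embedding H hdual
  refine ⟨M, hM, o, h1, h2, Y, h3, h4, ⟨ι⟩, ?_⟩
  intro Z _ _ _ hZ
  refine ⟨fun T => ?_⟩
  exact Pool.Agent.R277.Poly.not_iso_hilbert (H := H) hZ hinf
    (T.symm.trans ι.symm.toContinuousLinearEquiv)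

end Pool.Agent.Results.MP_8cd1d0_an.SmallBallCounterexample
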